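import Mathlib
import Pool.Agent.R350.GU

/-!
# The four exponentials conjecture for matrices with one generic row

Let `V` be a rational vector space of real numbers of finite dimension.  We say that the real numbers
`y_1, …, y_k` are a generic row over `V` if `V' = V + ℚ y_1 + ⋯ + ℚ y_k` has dimension `dim V + k` and
every `2 × 2` matrix of logarithms of positive rational (or algebraic) numbers with first row in `V'`,
not in `V`, with ARBITRARY second row, with `ℚ`-linearly independent rows and `ℚ`-linearly independent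
columns, has nonzero determinant.

For all `k`, `m` there is `C` such that for all `V` of dimension at most `m` and all `x ≥ 16` the
tuple `log a_1, …, log a_k` is a generic row over `V` for all but
`C (log log x) ^ C / log x * x ^ k` of the `k`-tuples `a` of positive integers up to `x`.

For `k = 1`, `V = ℚ log b`: if `t` is real and `a ^ t` and `b ^ t` are rational then `t` is rational,
for all `a` outside an exceptional set which does not depend on `t`.

The proof: if `(l_1, l_2)` is such a row, the other row gives a linear relation between logarithms whose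
coefficients lie in the fixed space generated by `V` and the preceding `y_i`.  The grid theorem
(`Pool.Agent.R350.PPD_one`), proved from the hyperplane case of the linear subgroup theorem of
Waldschmidt and Roy with the help of sunflowers of spaces of logarithms, shows that there is no such
relation for at least one of the sums `x_i + y_j + s_d` of the members of three large families of
independent logarithms.
-/

set_option autoImplicit false

namespace Pool.Agent.Results.MP_bbc1fa_nt.GenericRow

open Module

/-- the four exponentials conjecture holds for all matrices of logarithms of positive algebraic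
numbers with first row in `V + ℚ y_1 + ⋯ + ℚ y_k` and not in `V`, and arbitrary second row -/
def IsGenericRow (V : Submodule ℚ ℝ) {k : ℕ} (y : Fin k → ℝ) : Prop :=
  finrank ℚ (V ⊔ Submodule.span ℚ (Set.range y) : Submodule ℚ ℝ) = finrank ℚ V + k ∧
  ∀ M : Matrix (Fin 2) (Fin 2) ℝ, (∀ i j, IsAlgebraic ℚ (Real.exp (M i j))) →
    (∀ j, M 0 j ∈ V ⊔ Submodule.span ℚ (Set.range y)) →
    (∃ j, M 0 j ∉ V) →
    LinearIndependent ℚ (fun i : Fin 2 => fun j : Fin 2 => M i j) →
    LinearIndependent ℚ (fun j : Fin 2 => fun i : Fin 2 => M i j) →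
    M.det ≠ 0

/-- the embedding of the reals -/
noncomputable def φ : ℝ →ₗ[ℚ] ℂ := (Complex.ofRealAm.toLinearMap).restrictScalars ℚ

theorem φ_apply (r : ℝ) : φ r = (r : ℂ) := rfl

theorem φ_inj : Function.Injective φ := fun a b h => by
  rw [φ_apply, φ_apply] at h
  exact_mod_cast h

theorem finrank_map (W : Submodule ℚ ℝ) : finrank ℚ (W.map φ) = finrank ℚ W :=
  (Submodule.equivMapOfInjective φ φ_inj W).finrank_eq.symm

theorem genericRow_of_good2f (V : Submodule ℚ ℝ) {k : ℕ} (y : Fin k → ℝ)
    (h : Pool.Agent.R350.Good2f (V.map φ) Pool.Agent.H301R2.SSE.Lt (fun i => (y i : ℂ))) :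
    IsGenericRow V y := by
  have hmap : (V ⊔ Submodule.span ℚ (Set.range y)).map φ =
      V.map φ ⊔ Submodule.span ℚ (Set.range fun i => (y i : ℂ)) := by
    rw [Submodule.map_sup, Submodule.map_span, ← Set.range_comp]
    rfl
  have hg1 := h.1
  rw [← hmap, finrank_map, finrank_map] at hg1
  refine ⟨hg1, fun M hMalg hM0 hV hrow hcol hdet => ?_⟩
  have hdet' : M 0 0 * M 1 1 = M 0 1 * M 1 0 := by
    rw [Matrix.det_fin_two] at hdet
    linear_combination hdet
  have halg : ∀ i j, IsAlgebraic ℚ (Complex.exp (M i j : ℂ)) := fun i j => by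
    rw [← Complex.ofReal_exp]
    exact (hMalg i j).algebraMap
  have hli : LinearIndependent ℚ (fun j : Fin 2 => (M 0 j : ℂ)) :=
    (Pool.Agent.R350.row_li M hdet' hrow hcol).map' φ (LinearMap.ker_eq_bot.2 φ_inj)
  rcases h.2 (fun j => (M 0 j : ℂ)) (fun j => (M 1 j : ℂ)) (fun j => by
    rw [← hmap]
    exact Submodule.mem_map_of_mem (hM0 j)) (fun j => Submodule.mem_sup_left
      (Pool.Agent.H301R2.SSE.Lt_log (halg 1 j))) (by exact_mod_cast hdet') hli
    with ⟨ρ, hρ⟩ | h
  · have hM00 : (M 0 0 : ℂ) ≠ 0 := hli.ne_zero 0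
    obtain ⟨q, hq⟩ := Pool.Agent.R350.ratio_rat (ρ := (ρ : ℂ)) (halg 0 0) (halg 1 0)
      (Pool.Agent.H301R2.SSE.mem_QB.1 ρ.2) hM00 (hρ 0)
    have h1 := Fintype.linearIndependent_iff.1 hrow ![q, -1] (by
      rw [Fin.sum_univ_two]
      funext j
      simp only [Matrix.cons_val_zero, Matrix.cons_val_one, Pi.add_apply, Pi.smul_apply,
        Pi.zero_apply]
      have h2 : (M 1 j : ℂ) = (ρ : ℂ) * M 0 j := hρ j
      rw [hq] at h2
      have h3 : M 1 j = q * M 0 j := by exact_mod_cast h2
      rw [h3, neg_smul, one_smul, Rat.smul_def]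
      ring) 1
    simp at h1
  · obtain ⟨j, hj⟩ := hV
    apply hj
    obtain ⟨w, hw, h1⟩ := Submodule.mem_map.1 (h j)
    rw [φ_inj h1] at hw
    exact hw

open Classical in
/-- **Main result.** -/
theorem result (m k : ℕ) :
    ∃ C : ℕ, ∀ x : ℕ, 16 ≤ x → ∀ V : Submodule ℚ ℝ, Module.Finite ℚ V → finrank ℚ V ≤ m →
      (((Fintype.piFinset fun _ : Fin k => Finset.Icc 1 x).filter fun a =>
        ¬ IsGenericRow V (fun i => Real.log (a i))).card : ℝ) ≤
        C * Real.log (Real.log x) ^ C / Real.log x * (x : ℝ) ^ k := by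
  obtain ⟨C, hC⟩ := Pool.Agent.R350.rate_two k m 0
  refine ⟨C, fun x hx V hVf hVm => ?_⟩
  have hVf' : Module.Finite ℚ (V.map φ) := Module.Finite.map V φ
  refine hC x hx ℚ (algebraicClosure ℚ ℂ) ℂ
    (fun n : ℕ => (Real.log n : ℂ)) _ Pool.Agent.R350.setup_complex (V.map φ) hVf'
    (by rw [finrank_map]; exact hVm) _ (fun a ha => (Finset.mem_filter.1 ha).1) ?_
  intro a ha hgood
  exact (Finset.mem_filter.1 ha).2 (genericRow_of_good2f V _ hgood)

end Pool.Agent.Results.MP_bbc1fa_nt.GenericRow
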