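import Mathlib
import Pool.Agent.R350.GW
import Pool.Agent.R350.Inst
import Pool.Agent.TH519.HS.Cnt

/-!
# The four exponentials conjecture in a finitely generated group, with an arbitrary second row

We call `(x, y)` a first row if there is a `2 × 2` matrix of logarithms of positive rational (or
algebraic) numbers, with first row `(x, y)` and ARBITRARY second row, which has determinant `0`,
`ℚ`-linearly independent rows and `ℚ`-linearly independent columns.  The four exponentials conjecture
says that there are no first rows.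

Let `q_1, …, q_N` be positive rational (or algebraic) numbers with `ℚ`-linearly independent logarithms,
and let `G` be the group which they generate.  There is `C` such that for all `H ≥ 1`

1. of the `(2 H + 1) ^ (2 N)` pairs `(∏ q_j ^ a_{1 j}, ∏ q_j ^ a_{2 j})` of elements of `G` with
   exponents of absolute value at most `H` at most `C H ^ 10` are such that the pair of their
   logarithms is a first row;
2. of the `(2 H + 1) ^ N` elements `a = ∏ q_j ^ a_j` of `G` with exponents of absolute value at most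
   `H` at most `C H ^ 8` have the property that `(log a, log b)` is a first row for SOME element `b` of
   `G`, or more generally of the division group of `G`.

In other words: for all elements `a` of the box outside a set of at most `C H ^ 8` elements, all `b` in
`G` and all real `t`: if `a ^ t` and `b ^ t` are rational (or algebraic) then `t` is rational or `a` and
`b` are multiplicatively dependent.

The proof: dimension bounds for the set of first rows (`Pool.Agent.R350.row_dim`, `entry_dim`), from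
the strong six exponentials theorem of D. Roy, and counting of integral points.
-/

set_option autoImplicit false

namespace Pool.Agent.Results.MP_bbc1fa_nt.PairsInGroups

open Module

/-- `(x, y)` is the first row of a `2 × 2` matrix of real logarithms of positive algebraic numbers with
determinant `0`, `ℚ`-linearly independent rows and `ℚ`-linearly independent columns -/
def IsFirstRow (x y : ℝ) : Prop :=
  ∃ M : Matrix (Fin 2) (Fin 2) ℝ, (∀ i j, IsAlgebraic ℚ (Real.exp (M i j))) ∧
    M 0 0 = x ∧ M 0 1 = y ∧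
    LinearIndependent ℚ (fun i : Fin 2 => fun j : Fin 2 => M i j) ∧
    LinearIndependent ℚ (fun j : Fin 2 => fun i : Fin 2 => M i j) ∧ M.det = 0

/-- the embedding of the reals -/
noncomputable def φ : ℝ →ₗ[ℚ] ℂ := (Complex.ofRealAm.toLinearMap).restrictScalars ℚ

theorem φ_inj : Function.Injective φ := fun a b h => by
  change (a : ℂ) = (b : ℂ) at h
  exact_mod_cast h

/-- Baker's theorem for two logarithms -/
theorem baker_two {x y : ℝ} (hx : IsAlgebraic ℚ (Real.exp x)) (hy : IsAlgebraic ℚ (Real.exp y))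
    (h : LinearIndependent ℚ ![x, y]) (s t : algebraicClosure ℚ ℂ)
    (h0 : (s : ℂ) * x + t * y = 0) : s = 0 ∧ t = 0 := by
  have h1 : LinearIndependent ℚ (fun j : Fin 2 => ((![x, y] j : ℝ) : ℂ)) :=
    h.map' φ (LinearMap.ker_eq_bot.2 φ_inj)
  have h2 := Pool.Agent.H297R2.baker_inhom (fun j : Fin 2 => ((![x, y] j : ℝ) : ℂ)) (by
      intro j
      rw [← Complex.ofReal_exp]
      fin_cases j
      · exact hx.algebraMap
      · exact hy.algebraMap) h1 0 isAlgebraic_zero ![(s : ℂ), t] (by
      intro j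
      fin_cases j
      · exact mem_algebraicClosure_iff.1 s.2
      · exact mem_algebraicClosure_iff.1 t.2) (by
      rw [Fin.sum_univ_two, zero_add]
      exact h0)
  exact ⟨Subtype.ext (h2.2 0), Subtype.ext (h2.2 1)⟩

theorem badRow_of {x y : ℝ} (h : IsFirstRow x y) :
    Pool.Agent.R350.BadRow Pool.Agent.H301R2.SSE.Lt (x : ℂ) (y : ℂ) := by
  obtain ⟨M, hM, rfl, rfl, hr, hc, hdet⟩ := h
  have hdet' : M 0 0 * M 1 1 = M 0 1 * M 1 0 := by
    rw [Matrix.det_fin_two] at hdet
    linear_combination hdet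
  have h1 := Pool.Agent.R350.row_li M hdet' hr hc
  have h2 := Pool.Agent.R350.row_li M.transpose (by
    simp only [Matrix.transpose_apply]
    linear_combination hdet') hc hr
  have e1 : (fun j : Fin 2 => M 0 j) = ![M 0 0, M 0 1] := by
    funext j; fin_cases j <;> rfl
  have e2 : (fun j : Fin 2 => M.transpose 0 j) = ![M 0 0, M 1 0] := by
    funext j; fin_cases j <;> rfl
  rw [e1] at h1
  rw [e2] at h2
  have hmem : ∀ i j, (M i j : ℂ) ∈ Pool.Agent.H301R2.SSE.Lt := fun i j =>
    Pool.Agent.H301R2.SSE.Lt_log (by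
      rw [← Complex.ofReal_exp]
      exact (hM i j).algebraMap)
  refine ⟨_, hmem 1 0, _, hmem 1 1, by exact_mod_cast hdet', fun s t h3 _ => ?_,
    fun s t h3 _ => ?_⟩
  · exact baker_two (hM 0 0) (hM 1 0) h2 s t h3
  · exact baker_two (hM 0 0) (hM 0 1) h1 s t h3

/-- finiteness of boxes -/
theorem box_finite {σ : Type} [Fintype σ] (H : ℕ) (S : Set (σ → ℤ)) :
    {a : σ → ℤ | (∀ j, |a j| ≤ H) ∧ a ∈ S}.Finite := by
  classical
  have h1 : ((Fintype.piFinset fun _ : σ => Finset.Icc (-(H : ℤ)) H : Finset (σ → ℤ)) :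
      Set (σ → ℤ)).Finite := Finset.finite_toSet _
  refine h1.subset fun a ha => ?_
  rw [Finset.mem_coe, Fintype.mem_piFinset]
  intro j
  rw [Finset.mem_Icc, ← abs_le]
  exact ha.1 j

open Pool.Agent.Y787 (QC)

/-- **Main result.** -/
theorem result (N : ℕ) (q : Fin N → ℝ) (hq : ∀ j, 0 < q j ∧ IsAlgebraic ℚ (q j))
    (hli : LinearIndependent ℚ (fun j => Real.log (q j))) :
    ∃ C : ℕ, ∀ H : ℕ, 1 ≤ H →
      Set.ncard {a : Fin 2 × Fin N → ℤ | (∀ x, |a x| ≤ H) ∧
        IsFirstRow (Real.log (∏ j, q j ^ a (0, j))) (Real.log (∏ j, q j ^ a (1, j)))} ≤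
        C * H ^ 10 ∧
      Set.ncard {a : Fin N → ℤ | (∀ j, |a j| ≤ H) ∧ ∃ b : Fin N → ℚ,
        IsFirstRow (Real.log (∏ j, q j ^ a j)) (∑ j, b j * Real.log (q j))} ≤ C * H ^ 8 := by
  classical
  have halg : ∀ j, IsAlgebraic ℚ (Complex.exp (Real.log (q j) : ℂ)) := fun j => by
    rw [← Complex.ofReal_exp, Real.exp_log (hq j).1]
    exact (hq j).2.algebraMap
  have hliC : LinearIndependent ℚ (fun j => (Real.log (q j) : ℂ)) :=
    hli.map' φ (LinearMap.ker_eq_bot.2 φ_inj)
  have hliQ : LinearIndependent (algebraicClosure ℚ ℂ) (fun j => (Real.log (q j) : ℂ)) := by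
    rw [Fintype.linearIndependent_iff]
    intro g hg
    have h1 := Pool.Agent.H297R2.baker_inhom (fun j => (Real.log (q j) : ℂ)) halg hliC 0
      isAlgebraic_zero (fun j => (g j : ℂ)) (fun j => mem_algebraicClosure_iff.1 (g j).2) (by
        rw [zero_add, ← hg]
        exact Finset.sum_congr rfl fun j _ => by rw [Algebra.smul_def]; rfl)
    exact fun j => Subtype.ext (h1.2 j)
  set W : Submodule (algebraicClosure ℚ ℂ) ℂ :=
    Submodule.span (algebraicClosure ℚ ℂ) (Set.range fun j => (Real.log (q j) : ℂ)) with hW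
  have hWf : FiniteDimensional (algebraicClosure ℚ ℂ) W :=
    FiniteDimensional.span_of_finite _ (Set.finite_range _)
  have hWL : W ≤ Pool.Agent.H301R2.SSE.Lt := by
    rw [hW, Submodule.span_le]
    rintro _ ⟨j, rfl⟩
    exact Pool.Agent.H301R2.SSE.Lt_log (halg j)
  let B : Basis (Fin N) (algebraicClosure ℚ ℂ) W := Basis.span hliQ
  have hB : ∀ j, ((B j : W) : ℂ) = (Real.log (q j) : ℂ) := fun j =>
    congrArg Subtype.val (Basis.span_apply hliQ j)
  let T : (Fin N → algebraicClosure ℚ ℂ) → W := fun x => ∑ j, x j • B j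
  have hT : ∀ x, B.equivFun (T x) = x := fun x => by
    have h1 : T x = B.equivFun.symm x := (Basis.equivFun_symm_apply B x).symm
    rw [h1, LinearEquiv.apply_symm_apply]
  have hTc : ∀ x, ((T x : W) : ℂ) = ∑ j, x j • (Real.log (q j) : ℂ) := by
    intro x
    simp only [T, Submodule.coe_sum, Submodule.coe_smul, hB]
  have hlog : ∀ a : Fin N → ℤ, ((Real.log (∏ j, q j ^ a j) : ℝ) : ℂ) =
      T (fun j => (a j : algebraicClosure ℚ ℂ)) := by
    intro a
    rw [hTc, Real.log_prod (fun j _ => (zpow_pos (hq j).1 _).ne')]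
    push_cast
    refine Finset.sum_congr rfl fun j _ => ?_
    rw [Real.log_zpow, Complex.ofReal_mul, Algebra.smul_def]
    push_cast
    rfl
  -- pairs
  let ε : Fin (2 * N) ≃ Fin 2 × Fin N := finProdFinEquiv.symm
  obtain ⟨C₁, hC₁⟩ := Pool.Agent.TH519.HS.count (K := algebraicClosure ℚ ℂ) (d := 10)
    (M := 2 * N) {x | Pool.Agent.R350.BadRow Pool.Agent.H301R2.SSE.Lt
      (T fun j => x (ε.symm (0, j)) : ℂ) (T fun j => x (ε.symm (1, j)) : ℂ)} (by
      intro f
      let U : (Fin 2 → W) →ₗ[algebraicClosure ℚ ℂ] (Fin (2 * N) → algebraicClosure ℚ ℂ) :=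
        LinearMap.pi fun z => (LinearMap.proj (ε z).2) ∘ₗ B.equivFun.toLinearMap ∘ₗ
          LinearMap.proj (ε z).1
      obtain ⟨P, h1, h2⟩ := Pool.Agent.R350.row_dim (Lt := Pool.Agent.H301R2.SSE.Lt)
        (W := W) hWL (fun k => f k ∘ₗ U)
      refine ⟨P, h1, fun x hx => ?_⟩
      have h3 := h2 (fun i => T fun j => x (ε.symm (i, j))) hx
      have h4 : U (fun i => T fun j => x (ε.symm (i, j))) = x := by
        funext z
        change B.equivFun (T fun j => x (ε.symm ((ε z).1, j))) (ε z).2 = x z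
        rw [hT]
        change x (ε.symm (ε z)) = x z
        rw [Equiv.symm_apply_apply]
      simp only [LinearMap.comp_apply, h4] at h3
      exact h3)
  -- entries
  obtain ⟨C₂, hC₂⟩ := Pool.Agent.TH519.HS.count (K := algebraicClosure ℚ ℂ) (d := 8)
    (M := N) {x | ∃ y : W, Pool.Agent.R350.BadRow Pool.Agent.H301R2.SSE.Lt (T x : ℂ) (y : ℂ)} (by
      intro f
      obtain ⟨P, h1, h2⟩ := Pool.Agent.R350.entry_dim (Lt := Pool.Agent.H301R2.SSE.Lt)
        (W := W) hWL (fun k => f k ∘ₗ B.equivFun.toLinearMap)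
      refine ⟨P, h1, fun x hx => ?_⟩
      obtain ⟨y, hy⟩ := hx
      have h3 := h2 ![T x, y] hy 0
      simp only [LinearMap.comp_apply, Matrix.cons_val_zero, LinearEquiv.coe_coe, hT] at h3
      exact h3)
  refine ⟨C₁ + C₂, fun H hH => ⟨?_, ?_⟩⟩
  · have hfin : Set.Finite {a : Fin 2 × Fin N → ℤ | (∀ x, |a x| ≤ H) ∧
        IsFirstRow (Real.log (∏ j, q j ^ a (0, j))) (Real.log (∏ j, q j ^ a (1, j)))} :=
      box_finite H {a : Fin 2 × Fin N → ℤ |
        IsFirstRow (Real.log (∏ j, q j ^ a (0, j))) (Real.log (∏ j, q j ^ a (1, j)))}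
    have h1 : Set.ncard {a : Fin 2 × Fin N → ℤ | (∀ x, |a x| ≤ H) ∧
        IsFirstRow (Real.log (∏ j, q j ^ a (0, j))) (Real.log (∏ j, q j ^ a (1, j)))} ≤
        C₁ * H ^ 10 := by
      rw [Set.ncard_eq_toFinset_card _ hfin]
      let g : (Fin 2 × Fin N → ℤ) → (Fin (2 * N) → ℤ) := fun a z => a (ε z)
      have hg : Function.Injective g := by
        intro a a' h
        funext x
        have := congrFun h (ε.symm x)
        simp only [g, Equiv.apply_symm_apply] at this
        exact this
      rw [← Finset.card_image_of_injective _ hg]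
      refine hC₁ H hH _ fun a ha => ?_
      obtain ⟨A, hA, rfl⟩ := Finset.mem_image.1 ha
      rw [Set.Finite.mem_toFinset] at hA
      refine ⟨fun z => hA.1 _, ?_⟩
      have h2 := badRow_of hA.2
      have e : ∀ i j, (g A (ε.symm (i, j)) : ℤ) = A (i, j) := fun i j => by
        simp only [g, Equiv.apply_symm_apply]
      have h3 : ∀ i, (fun j => ((g A (ε.symm (i, j)) : ℤ) : algebraicClosure ℚ ℂ)) =
          fun j => (A (i, j) : algebraicClosure ℚ ℂ) := fun i => by
        funext j
        rw [e]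
      change Pool.Agent.R350.BadRow Pool.Agent.H301R2.SSE.Lt
        (T fun j => ((g A (ε.symm (0, j)) : ℤ) : algebraicClosure ℚ ℂ) : ℂ)
        (T fun j => ((g A (ε.symm (1, j)) : ℤ) : algebraicClosure ℚ ℂ) : ℂ)
      rw [h3, h3, ← hlog, ← hlog]
      exact h2
    exact h1.trans (Nat.mul_le_mul_right _ (Nat.le_add_right _ _))
  · have hfin : Set.Finite {a : Fin N → ℤ | (∀ j, |a j| ≤ H) ∧ ∃ b : Fin N → ℚ,
        IsFirstRow (Real.log (∏ j, q j ^ a j)) (∑ j, b j * Real.log (q j))} :=
      box_finite H {a : Fin N → ℤ | ∃ b : Fin N → ℚ,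
        IsFirstRow (Real.log (∏ j, q j ^ a j)) (∑ j, b j * Real.log (q j))}
    have h1 : Set.ncard {a : Fin N → ℤ | (∀ j, |a j| ≤ H) ∧ ∃ b : Fin N → ℚ,
        IsFirstRow (Real.log (∏ j, q j ^ a j)) (∑ j, b j * Real.log (q j))} ≤ C₂ * H ^ 8 := by
      rw [Set.ncard_eq_toFinset_card _ hfin]
      refine hC₂ H hH _ fun a ha => ?_
      rw [Set.Finite.mem_toFinset] at ha
      obtain ⟨ha1, b, hb⟩ := ha
      refine ⟨ha1, T (fun j => (b j : algebraicClosure ℚ ℂ)), ?_⟩
      have h2 := badRow_of hb
      rw [hlog] at h2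
      have h3 : ((∑ j, b j * Real.log (q j) : ℝ) : ℂ) =
          T (fun j => (b j : algebraicClosure ℚ ℂ)) := by
        rw [hTc]
        push_cast
        refine Finset.sum_congr rfl fun j _ => ?_
        rw [Algebra.smul_def]
        push_cast
        rfl
      rw [h3] at h2
      exact h2
    exact h1.trans (Nat.mul_le_mul_right _ (Nat.le_add_left _ _))

end Pool.Agent.Results.MP_bbc1fa_nt.PairsInGroups
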