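import Mathlib
import Pool.Agent.R350.GU

/-!
# Four exponentials: products of three rational numbers in the first row, arbitrary second row

Let `V` be a rational vector space of real numbers of finite dimension.  We say that the real numbers
`y_1, …, y_k` are a generic row over `V` if `V' = V + ℚ y_1 + ⋯ + ℚ y_k` has dimension `dim V + k` and
every `2 × 2` matrix of logarithms of positive rational (or algebraic) numbers with first row in `V'`,
not in `V`, with ARBITRARY second row, with `ℚ`-linearly independent rows and `ℚ`-linearly independent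
columns, has nonzero determinant.

For all `k`, `m` there are `δ > 0` and `C` such that for all `V` of dimension at most `m`, all `N`,
ARBITRARY multiplicatively independent positive rational (or algebraic) numbers `q_1, …, q_N` and
nonzero integers `c (i, j)` the tuple of the logarithms of
`q_{f (i, 1)} ^ c (i, 1) q_{f (i, 2)} ^ c (i, 2) q_{f (i, 3)} ^ c (i, 3)` is a generic row over `V` for
all but `C N ^ (3 k - δ)` of the `N ^ (3 k)` functions `f`.

For `k = 1`, `V = ℚ log b` and the primes `q_i` of any set: if `a` is a product of three primes of the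
set, outside a small exceptional set of such products, and `a ^ t` and `b ^ t` are rational for a real
number `t`, then `t` is rational.

The proof: if `(l_1, l_2)` is such a row, the other row gives a linear relation between logarithms whose
coefficients lie in the fixed space generated by `V` and the preceding `y_i`.  The grid theorem
(`Pool.Agent.R350.PPD_one`), proved from the hyperplane case of the linear subgroup theorem of
Waldschmidt and Roy with the help of sunflowers of spaces of logarithms, shows that there is no such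
relation for at least one of the sums `x_i + y_j + s_d` of the members of three large families of
independent logarithms.  Dense sets of functions contain large boxes (Erdős).
-/

set_option autoImplicit false

namespace Pool.Agent.Results.MP_bbc1fa_nt.ProductsOfThree

open Module

/-- the four exponentials conjecture holds for all matrices of logarithms of positive algebraic
numbers with first row in `V + ℚ y_1 + ⋯ + ℚ y_k` and not in `V`, and arbitrary second row -/
def IsGenericRow (V : Submodule ℚ ℝ) {k : ℕ} (y : Fin k → ℝ) : Prop :=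
  finrank ℚ (V ⊔ Submodule.span ℚ (Set.range y) : Submodule ℚ ℝ) = finrank ℚ V + k ∧
  ∀ M : Matrix (Fin 2) (Fin 2) ℝ, (∀ i j, IsAlgebraic ℚ (Real.exp (M i j))) →
    (∀ j, M 0 j ∈ V ⊔ Submodule.span ℚ (Set.range y)) →
    (∃ j, M 0 j ∉ V) →
    LinearIndependent ℚ (fun i : Fin 2 => fun j : Fin 2 => M i j) →
    LinearIndependent ℚ (fun j : Fin 2 => fun i : Fin 2 => M i j) →
    M.det ≠ 0

/-- the embedding of the reals -/
noncomputable def φ : ℝ →ₗ[ℚ] ℂ := (Complex.ofRealAm.toLinearMap).restrictScalars ℚ

theorem φ_apply (r : ℝ) : φ r = (r : ℂ) := rfl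

theorem φ_inj : Function.Injective φ := fun a b h => by
  rw [φ_apply, φ_apply] at h
  exact_mod_cast h

theorem finrank_map (W : Submodule ℚ ℝ) : finrank ℚ (W.map φ) = finrank ℚ W :=
  (Submodule.equivMapOfInjective φ φ_inj W).finrank_eq.symm

theorem genericRow_of_good2f (V : Submodule ℚ ℝ) {k : ℕ} (y : Fin k → ℝ)
    (h : Pool.Agent.R350.Good2f (V.map φ) Pool.Agent.H301R2.SSE.Lt (fun i => (y i : ℂ))) :
    IsGenericRow V y := by
  have hmap : (V ⊔ Submodule.span ℚ (Set.range y)).map φ =
      V.map φ ⊔ Submodule.span ℚ (Set.range fun i => (y i : ℂ)) := by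
    rw [Submodule.map_sup, Submodule.map_span, ← Set.range_comp]
    rfl
  have hg1 := h.1
  rw [← hmap, finrank_map, finrank_map] at hg1
  refine ⟨hg1, fun M hMalg hM0 hV hrow hcol hdet => ?_⟩
  have hdet' : M 0 0 * M 1 1 = M 0 1 * M 1 0 := by
    rw [Matrix.det_fin_two] at hdet
    linear_combination hdet
  have halg : ∀ i j, IsAlgebraic ℚ (Complex.exp (M i j : ℂ)) := fun i j => by
    rw [← Complex.ofReal_exp]
    exact (hMalg i j).algebraMap
  have hli : LinearIndependent ℚ (fun j : Fin 2 => (M 0 j : ℂ)) :=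
    (Pool.Agent.R350.row_li M hdet' hrow hcol).map' φ (LinearMap.ker_eq_bot.2 φ_inj)
  rcases h.2 (fun j => (M 0 j : ℂ)) (fun j => (M 1 j : ℂ)) (fun j => by
    rw [← hmap]
    exact Submodule.mem_map_of_mem (hM0 j)) (fun j => Submodule.mem_sup_left
      (Pool.Agent.H301R2.SSE.Lt_log (halg 1 j))) (by exact_mod_cast hdet') hli
    with ⟨ρ, hρ⟩ | h
  · have hM00 : (M 0 0 : ℂ) ≠ 0 := hli.ne_zero 0
    obtain ⟨q, hq⟩ := Pool.Agent.R350.ratio_rat (ρ := (ρ : ℂ)) (halg 0 0) (halg 1 0)
      (Pool.Agent.H301R2.SSE.mem_QB.1 ρ.2) hM00 (hρ 0)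
    have h1 := Fintype.linearIndependent_iff.1 hrow ![q, -1] (by
      rw [Fin.sum_univ_two]
      funext j
      simp only [Matrix.cons_val_zero, Matrix.cons_val_one, Pi.add_apply, Pi.smul_apply,
        Pi.zero_apply]
      have h2 : (M 1 j : ℂ) = (ρ : ℂ) * M 0 j := hρ j
      rw [hq] at h2
      have h3 : M 1 j = q * M 0 j := by exact_mod_cast h2
      rw [h3, neg_smul, one_smul, Rat.smul_def]
      ring) 1
    simp at h1
  · obtain ⟨j, hj⟩ := hV
    apply hj
    obtain ⟨w, hw, h1⟩ := Submodule.mem_map.1 (h j)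
    rw [φ_inj h1] at hw
    exact hw

open Classical in
/-- **Main result.** -/
theorem result (m k : ℕ) :
    ∃ δ : ℝ, 0 < δ ∧ ∃ C : ℝ, ∀ V : Submodule ℚ ℝ, Module.Finite ℚ V → finrank ℚ V ≤ m →
      ∀ (N : ℕ) (q : Fin N → ℝ), (∀ i, 0 < q i) → (∀ i, IsAlgebraic ℚ (q i)) →
      LinearIndependent ℚ (fun i => Real.log (q i)) →
      ∀ c : Fin k → Fin 3 → ℤ, (∀ i j, c i j ≠ 0) →
      ((Finset.univ.filter fun f : Fin k → Fin 3 → Fin N =>
        ¬ IsGenericRow V (fun i => Real.log (∏ j, q (f i j) ^ c i j))).card : ℝ) ≤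
        C * (N : ℝ) ^ (((k * 3 : ℕ) : ℝ) - δ) := by
  obtain ⟨δ, hδ, K', hK', h⟩ := Pool.Agent.R350.few_two k m 0
  refine ⟨δ, hδ, K', fun V hVf hVm N q hq hqa hli c hc =>
    Pool.Agent.R350.npow_final hδ hK' ?_⟩
  have hVf' : Module.Finite ℚ (V.map φ) := Module.Finite.map V φ
  have hlog : ∀ i, IsAlgebraic ℚ (Complex.exp ((Real.log (q i) : ℝ) : ℂ)) := fun i => by
    rw [← Complex.ofReal_exp, Real.exp_log (hq i)]
    exact (hqa i).algebraMap
  refine h ℚ (algebraicClosure ℚ ℂ) ℂ Pool.Agent.H301R2.SSE.Lt
    Pool.Agent.R350.setup_complex.hyp Pool.Agent.R350.setup_complex.one (V.map φ) hVf'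
    (by rw [finrank_map]; exact hVm) 0
    (fun _ => Submodule.zero_mem _) N (fun i => ((Real.log (q i) : ℝ) : ℂ))
    (fun i => Pool.Agent.H301R2.SSE.Lt_log (hlog i))
    (Pool.Agent.R350.li_complex _ hlog (hli.map' φ (LinearMap.ker_eq_bot.2 φ_inj)))
    (fun i j => algebraMap ℚ (algebraicClosure ℚ ℂ) (c i j))
    (fun i j => (map_ne_zero _).2 (by exact_mod_cast hc i j)) _ ?_
  intro f hf hgood
  apply (Finset.mem_filter.1 hf).2
  have he : (fun a => (0 : Fin k → ℂ) a + ∑ j, (algebraMap ℚ (algebraicClosure ℚ ℂ) (c a j)) •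
      ((Real.log (q (f a j)) : ℝ) : ℂ)) =
      fun i => ((Real.log (∏ j, q (f i j) ^ c i j) : ℝ) : ℂ) := by
    funext i
    rw [Pi.zero_apply, zero_add, Real.log_prod (fun j _ => (zpow_pos (hq _) _).ne'),
      Complex.ofReal_sum]
    refine Finset.sum_congr rfl fun j _ => ?_
    rw [Algebra.smul_def, Real.log_zpow, Complex.ofReal_mul, Complex.ofReal_intCast]
    simp
  rw [he] at hgood
  exact genericRow_of_good2f V _ hgood

end Pool.Agent.Results.MP_bbc1fa_nt.ProductsOfThree
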