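import Mathlib
import Pool.Agent.R350.HK
import Pool.Agent.R350.HN

/-!
# The four exponentials conjecture for matrices with one generic row in a finitely generated group

Let `V` be a rational vector space of real numbers of finite dimension.  We say that the real numbers
`y_1, …, y_k` are a generic row over `V` if `V' = V + ℚ y_1 + ⋯ + ℚ y_k` has dimension `dim V + k` and
every `2 × 2` matrix of logarithms of positive rational (or algebraic) numbers with first row in `V'`,
not in `V`, with ARBITRARY second row, with `ℚ`-linearly independent rows and `ℚ`-linearly independent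
columns, has nonzero determinant.

For all `k`, `m` there is a number `c`, and for all `N` there is `C`, such that for all `V` of dimension
at most `m`, ALL multiplicatively independent positive rational (or algebraic) numbers `q_1, …, q_N`
and all `H ≥ 1` the logarithms of the `k` numbers `∏_j q_j ^ a_{i j}` are a generic row over `V` for all
but `C H ^ ((k - 1) N + c)` of the `k × N` matrices `a` of integers of absolute value at most `H`.  The
number `c` does not depend on `N`, and `C` does not depend on the `q_j` and on `V`.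

For `k = 1`, `V = ℚ log b`: in a group of positive rational numbers of rank `N` generated by
`q_1, …, q_N` all but `C H ^ c` of the `(2 H + 1) ^ N` numbers `a = ∏ q_j ^ a_j`, `|a_j| ≤ H`, have the
following property: if `t` is real and `a ^ t` and `b ^ t` are rational (or algebraic), then `t` is
rational.

The proof: the set of all algebraic matrices `a` for which `∑_j a_{i j} log q_j` is not a generic row
has dimension at most `(k - 1) N + c`, and the degree of the relations which show this is bounded.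
This is proved with derivations of ultrapowers of `ℂ` and the strong six exponentials theorem of
D. Roy (`Pool.Agent.R350`).
-/

set_option autoImplicit false

namespace Pool.Agent.Results.MP_bbc1fa_nt.RowsInGroups

open Module

/-- the four exponentials conjecture holds for all matrices of logarithms of positive algebraic
numbers with first row in `V + ℚ y_1 + ⋯ + ℚ y_k` and not in `V`, and arbitrary second row -/
def IsGenericRow (V : Submodule ℚ ℝ) {k : ℕ} (y : Fin k → ℝ) : Prop :=
  finrank ℚ (V ⊔ Submodule.span ℚ (Set.range y) : Submodule ℚ ℝ) = finrank ℚ V + k ∧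
  ∀ M : Matrix (Fin 2) (Fin 2) ℝ, (∀ i j, IsAlgebraic ℚ (Real.exp (M i j))) →
    (∀ j, M 0 j ∈ V ⊔ Submodule.span ℚ (Set.range y)) →
    (∃ j, M 0 j ∉ V) →
    LinearIndependent ℚ (fun i : Fin 2 => fun j : Fin 2 => M i j) →
    LinearIndependent ℚ (fun j : Fin 2 => fun i : Fin 2 => M i j) →
    M.det ≠ 0

/-- the embedding of the reals -/
noncomputable def φ : ℝ →ₗ[ℚ] ℂ := (Complex.ofRealAm.toLinearMap).restrictScalars ℚ

theorem φ_apply (r : ℝ) : φ r = (r : ℂ) := rfl

theorem φ_inj : Function.Injective φ := fun a b h => by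
  rw [φ_apply, φ_apply] at h
  exact_mod_cast h

theorem finrank_map (W : Submodule ℚ ℝ) : finrank ℚ (W.map φ) = finrank ℚ W :=
  (Submodule.equivMapOfInjective φ φ_inj W).finrank_eq.symm

theorem genericRow_of_good2f (V : Submodule ℚ ℝ) {k : ℕ} (y : Fin k → ℝ)
    (h : Pool.Agent.R350.Good2f (V.map φ) Pool.Agent.H301R2.SSE.Lt (fun i => (y i : ℂ))) :
    IsGenericRow V y := by
  have hmap : (V ⊔ Submodule.span ℚ (Set.range y)).map φ =
      V.map φ ⊔ Submodule.span ℚ (Set.range fun i => (y i : ℂ)) := by
    rw [Submodule.map_sup, Submodule.map_span, ← Set.range_comp]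
    rfl
  have hg1 := h.1
  rw [← hmap, finrank_map, finrank_map] at hg1
  refine ⟨hg1, fun M hMalg hM0 hV hrow hcol hdet => ?_⟩
  have hdet' : M 0 0 * M 1 1 = M 0 1 * M 1 0 := by
    rw [Matrix.det_fin_two] at hdet
    linear_combination hdet
  have halg : ∀ i j, IsAlgebraic ℚ (Complex.exp (M i j : ℂ)) := fun i j => by
    rw [← Complex.ofReal_exp]
    exact (hMalg i j).algebraMap
  have hli : LinearIndependent ℚ (fun j : Fin 2 => (M 0 j : ℂ)) :=
    (Pool.Agent.R350.row_li M hdet' hrow hcol).map' φ (LinearMap.ker_eq_bot.2 φ_inj)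
  rcases h.2 (fun j => (M 0 j : ℂ)) (fun j => (M 1 j : ℂ)) (fun j => by
    rw [← hmap]
    exact Submodule.mem_map_of_mem (hM0 j)) (fun j => Submodule.mem_sup_left
      (Pool.Agent.H301R2.SSE.Lt_log (halg 1 j))) (by exact_mod_cast hdet') hli
    with ⟨ρ, hρ⟩ | h
  · have hM00 : (M 0 0 : ℂ) ≠ 0 := hli.ne_zero 0
    obtain ⟨q, hq⟩ := Pool.Agent.R350.ratio_rat (ρ := (ρ : ℂ)) (halg 0 0) (halg 1 0)
      (Pool.Agent.H301R2.SSE.mem_QB.1 ρ.2) hM00 (hρ 0)
    have h1 := Fintype.linearIndependent_iff.1 hrow ![q, -1] (by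
      rw [Fin.sum_univ_two]
      funext j
      simp only [Matrix.cons_val_zero, Matrix.cons_val_one, Pi.add_apply, Pi.smul_apply,
        Pi.zero_apply]
      have h2 : (M 1 j : ℂ) = (ρ : ℂ) * M 0 j := hρ j
      rw [hq] at h2
      have h3 : M 1 j = q * M 0 j := by exact_mod_cast h2
      rw [h3, neg_smul, one_smul, Rat.smul_def]
      ring) 1
    simp at h1
  · obtain ⟨j, hj⟩ := hV
    apply hj
    obtain ⟨w, hw, h1⟩ := Submodule.mem_map.1 (h j)
    rw [φ_inj h1] at hw
    exact hw

/-- **Main result.** -/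
theorem result (m k : ℕ) : ∃ c : ℕ, ∀ N : ℕ, ∃ C : ℕ,
    ∀ V : Submodule ℚ ℝ, Module.Finite ℚ V → finrank ℚ V ≤ m →
    ∀ q : Fin N → ℝ, (∀ j, 0 < q j ∧ IsAlgebraic ℚ (q j)) →
    LinearIndependent ℚ (fun j => Real.log (q j)) →
    ∀ H : ℕ, 1 ≤ H → Set.ncard {a : Fin k → Fin N → ℤ | (∀ i j, |a i j| ≤ H) ∧
      ¬ IsGenericRow V (fun i => Real.log (∏ j, q j ^ a i j))} ≤ C * H ^ ((k - 1) * N + c) := by
  refine ⟨Pool.Agent.R350.bigR k m 0, fun N => ?_⟩
  obtain ⟨Q, hQ⟩ := Pool.Agent.R350.rows_count ℚ (algebraicClosure ℚ ℂ) ℂ k 0 m N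
  refine ⟨Q, fun V hVf hVm q hq hli H hH => ?_⟩
  have hVf' : Module.Finite ℚ (V.map φ) := Module.Finite.map V φ
  have halg : ∀ j, IsAlgebraic ℚ (Complex.exp (Real.log (q j) : ℂ)) := fun j => by
    rw [← Complex.ofReal_exp, Real.exp_log (hq j).1]
    exact (hq j).2.algebraMap
  have hliC : LinearIndependent ℚ (fun j => (Real.log (q j) : ℂ)) :=
    hli.map' φ (LinearMap.ker_eq_bot.2 φ_inj)
  refine le_trans (Set.ncard_le_ncard ?_ ?_) (hQ Pool.Agent.H301R2.SSE.Lt
    Pool.Agent.R350.setup_complex.hyp Pool.Agent.R350.setup_complex.one (V.map φ) hVf'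
    (by rw [finrank_map]; exact hVm) 0 (fun _ => Submodule.zero_mem _)
    (fun j => (Real.log (q j) : ℂ))
    (fun j => Submodule.mem_sup_left (Pool.Agent.H301R2.SSE.Lt_log (halg j)))
    (Pool.Agent.R350.li_logs _ halg hliC) H hH)
  · rintro a ⟨ha1, ha2⟩
    refine ⟨ha1, fun h => ha2 (genericRow_of_good2f V _ ?_)⟩
    have he : (fun i => ((Real.log (∏ j, q j ^ a i j) : ℝ) : ℂ)) =
        fun i => (0 : Fin k → ℂ) i +
          ∑ j, (a i j : algebraicClosure ℚ ℂ) • (Real.log (q j) : ℂ) := by
      funext i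
      rw [Pi.zero_apply, zero_add, Real.log_prod (fun j _ => (zpow_pos (hq j).1 _).ne')]
      push_cast
      refine Finset.sum_congr rfl fun j _ => ?_
      rw [Real.log_zpow, Complex.ofReal_mul, Algebra.smul_def]
      push_cast
      rfl
    rw [he]
    exact h
  · have h1 : ((Fintype.piFinset fun _ : Fin k => Fintype.piFinset fun _ : Fin N =>
        Finset.Icc (-(H : ℤ)) H : Finset (Fin k → Fin N → ℤ)) :
        Set (Fin k → Fin N → ℤ)).Finite := Finset.finite_toSet _
    refine h1.subset fun A hA => ?_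
    rw [Finset.mem_coe, Fintype.mem_piFinset]
    intro i
    rw [Fintype.mem_piFinset]
    intro j
    rw [Finset.mem_Icc, ← abs_le]
    exact hA.1 i j

end Pool.Agent.Results.MP_bbc1fa_nt.RowsInGroups
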